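import Mathlib

namespace Pool.Agent.H.MP_f59665_co

open Finset Matrix

open Classical in
/-- Number of positive eigenvalues of the real adjacency matrix, with multiplicity. -/
noncomputable def nPos {V : Type} [Fintype V] (G : SimpleGraph V) : ℕ :=
  (univ.filter fun i => 0 < (G.isHermitian_adjMatrix ℝ).eigenvalues i).card

open Classical in
/-- Number of negative eigenvalues of the real adjacency matrix, with multiplicity. -/
noncomputable def nNeg {V : Type} [Fintype V] (G : SimpleGraph V) : ℕ :=
  (univ.filter fun i => (G.isHermitian_adjMatrix ℝ).eigenvalues i < 0).card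

lemma count_nonpos {V F : Type} [Fintype V] [DecidableEq V] [Fintype F] (A : Matrix V V ℝ)
    (hA : A.IsHermitian) (L : (V → ℝ) →ₗ[ℝ] (F → ℝ))
    (h : ∀ x, L x = 0 → x ≠ 0 → 0 < x ⬝ᵥ A *ᵥ x) :
    (univ.filter fun i => hA.eigenvalues i ≤ 0).card ≤ Fintype.card F := by
  classical
  let S := {i // hA.eigenvalues i ≤ 0}
  let u : V → V → ℝ := fun i => ⇑(hA.eigenvectorBasis i)
  have ho : ∀ i j, u i ⬝ᵥ u j = if i = j then 1 else 0 := by
    intro i j
    have := orthonormal_iff_ite.mp hA.eigenvectorBasis.orthonormal j i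
    rw [EuclideanSpace.inner_eq_star_dotProduct] at this
    simp only [star_trivial] at this
    rw [this]
    by_cases hij : i = j
    · simp [hij]
    · simp [hij, Ne.symm hij]
  have hm : ∀ i, A *ᵥ u i = hA.eigenvalues i • u i := fun i => hA.mulVec_eigenvectorBasis i
  let T : (S → ℝ) →ₗ[ℝ] (V → ℝ) := Fintype.linearCombination ℝ (fun i : S => u i.1)
  have hT : ∀ c, T c = ∑ i : S, c i • u i.1 := fun c => Fintype.linearCombination_apply _ _ _
  have hdot : ∀ (c : S → ℝ) (j : S), u j.1 ⬝ᵥ T c = c j := by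
    intro c j
    rw [hT, dotProduct_sum]
    simp only [dotProduct_smul, ho, smul_eq_mul]
    rw [Finset.sum_eq_single j]
    · simp
    · intro b _ hb
      rw [if_neg (fun h => hb (Subtype.ext h.symm)), mul_zero]
    · simp
  have hinj : Function.Injective (L ∘ₗ T) := by
    rw [← LinearMap.ker_eq_bot, LinearMap.ker_eq_bot']
    intro c hc
    have hx : T c = 0 := by
      by_contra hne
      have h1 := h (T c) hc hne
      have h2 : T c ⬝ᵥ A *ᵥ T c = ∑ i : S, c i * c i * hA.eigenvalues i.1 := by
        conv_lhs => rw [dotProduct_comm]; arg 1; rw [hT]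
        rw [mulVec_sum, sum_dotProduct]
        refine Finset.sum_congr rfl fun i _ => ?_
        rw [mulVec_smul, hm, smul_dotProduct, smul_dotProduct, hdot]
        simp only [smul_eq_mul]; ring
      have h3 : ∑ i : S, c i * c i * hA.eigenvalues i.1 ≤ 0 :=
        Finset.sum_nonpos fun i _ => mul_nonpos_of_nonneg_of_nonpos (mul_self_nonneg _) i.2
      linarith
    funext j
    rw [← hdot c j, hx]; simp
  have := LinearMap.finrank_le_finrank_of_injective hinj
  simp only [Module.finrank_fintype_fun_eq_card] at this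
  rwa [Fintype.card_subtype] at this

/-- Agreement indicator of a feature. -/
def ind {V C : Type} [DecidableEq C] (f : V → C) (u v : V) : ℝ := if f u = f v then 1 else 0

/-- Quadratic form of a kernel. -/
def Q {V : Type} [Fintype V] (K : V → V → ℝ) (x : V → ℝ) : ℝ := ∑ u, ∑ v, x u * (K u v * x v)

lemma Q_ind {V C : Type} [Fintype V] [Fintype C] [DecidableEq C] (f : V → C) (x : V → ℝ) :
    Q (ind f) x = ∑ c, (∑ u with f u = c, x u) ^ 2 := by
  unfold Q ind
  simp only [sq, Finset.sum_filter, Finset.sum_mul_sum]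
  rw [Finset.sum_comm (s := univ) (t := univ)
    (f := fun c u => ∑ v, (if f u = c then x u else 0) * (if f v = c then x v else 0))]
  refine Finset.sum_congr rfl fun u _ => ?_
  rw [Finset.sum_comm]
  refine Finset.sum_congr rfl fun v _ => ?_
  rw [Finset.sum_eq_single (f u)]
  · by_cases h : f u = f v
    · simp [h]
    · simp [h, Ne.symm h]
  · intro c _ hc; simp [Ne.symm hc]
  · simp

lemma Q_ind_nonneg {V C : Type} [Fintype V] [Fintype C] [DecidableEq C] (f : V → C) (x : V → ℝ) :
    0 ≤ Q (ind f) x := by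
  rw [Q_ind]; positivity

lemma Q_id_pos {V : Type} [Fintype V] [DecidableEq V] (x : V → ℝ) (hx : x ≠ 0) :
    0 < Q (ind (id : V → V)) x := by
  rw [Q_ind]
  obtain ⟨v, hv⟩ := Function.ne_iff.mp hx
  refine Finset.sum_pos' (fun _ _ => sq_nonneg _) ⟨v, mem_univ _, ?_⟩
  have : (univ.filter fun u => id u = v) = {v} := by ext; simp
  rw [this, Finset.sum_singleton]
  exact sq_pos_of_ne_zero hv

section
variable (q : ℕ) [NeZero q]

abbrev Vq := ZMod q × ZMod q × ZMod q × ZMod q × ZMod q

/-- The six negative features. -/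
def g : Fin 6 → Vq q → ZMod q × ZMod q :=
  ![fun u => (u.1, u.2.1), fun u => (u.1, u.2.2.1), fun u => (u.2.1, u.2.2.1),
    fun u => (u.1, u.2.2.2.1), fun u => (u.2.1, u.2.2.2.2),
    fun u => (u.2.2.1, u.2.2.2.1 + u.2.2.2.2)]

def val (u v : Vq q) : ℝ :=
  ind (fun u : Vq q => u.1) u v + ind (fun u : Vq q => u.2.1) u v
    + ind (fun u : Vq q => u.2.2.1) u v + ind (fun u : Vq q => (u.1, u.2.1, u.2.2.1)) u v
    + ind (fun u : Vq q => u.2.2.2) u v + ind id u v - ∑ j, ind (g q j) u v

omit [NeZero q] in
lemma val_cases (u v : Vq q) : val q u v = 0 ∨ val q u v = 1 := by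
  obtain ⟨a, b, c, d, e⟩ := u
  obtain ⟨a', b', c', d', e'⟩ := v
  simp only [val, ind, g, Fin.sum_univ_six, id, Prod.mk.injEq, Matrix.cons_val]
  by_cases hd : d = d' <;> by_cases he : e = e'
  · have hs : d + e = d' + e' := by rw [hd, he]
    by_cases ha : a = a' <;> by_cases hb : b = b' <;> by_cases hc : c = c' <;>
      simp [ha, hb, hc, hd, he] <;> norm_num
  · have hs : ¬ d + e = d' + e' := by rw [hd]; simpa using he
    by_cases ha : a = a' <;> by_cases hb : b = b' <;> by_cases hc : c = c' <;>
      simp [ha, hb, hc, hd, he] <;> norm_num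
  · have hs : ¬ d + e = d' + e' := by rw [he]; simpa using hd
    by_cases ha : a = a' <;> by_cases hb : b = b' <;> by_cases hc : c = c' <;>
      simp [ha, hb, hc, hd, he] <;> norm_num
  · by_cases hs : d + e = d' + e' <;>
    by_cases ha : a = a' <;> by_cases hb : b = b' <;> by_cases hc : c = c' <;>
      simp [ha, hb, hc, hd, he, hs] <;> norm_num

omit [NeZero q] in
lemma val_symm (u v : Vq q) : val q u v = val q v u := by
  simp only [val, ind, eq_comm]

omit [NeZero q] in
lemma val_self (u : Vq q) : val q u u = 0 := by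
  simp [val, ind]; norm_num

def G : SimpleGraph (Vq q) where
  Adj u v := val q u v = 1
  symm := ⟨fun u v h => by rw [val_symm]; exact h⟩
  loopless := ⟨fun u h => by rw [val_self] at h; norm_num at h⟩

def L : (Vq q → ℝ) →ₗ[ℝ] (Fin 6 × (ZMod q × ZMod q) → ℝ) where
  toFun x := fun p => ∑ u with g q p.1 u = p.2, x u
  map_add' x y := by funext p; simp [Finset.sum_add_distrib]
  map_smul' c x := by funext p; simp [Finset.mul_sum]

lemma Q_val_pos (x : Vq q → ℝ) (hL : L q x = 0) (hx : x ≠ 0) : 0 < Q (val q) x := by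
  have e : Q (val q) x = Q (ind fun u : Vq q => u.1) x + Q (ind fun u : Vq q => u.2.1) x
      + Q (ind fun u : Vq q => u.2.2.1) x + Q (ind fun u : Vq q => (u.1, u.2.1, u.2.2.1)) x
      + Q (ind fun u : Vq q => u.2.2.2) x + Q (ind id) x - ∑ j, Q (ind (g q j)) x := by
    simp only [Q, val, Fin.sum_univ_six, ← Finset.sum_add_distrib, ← Finset.sum_sub_distrib]
    refine Finset.sum_congr rfl fun u _ => Finset.sum_congr rfl fun v _ => ?_
    ring
  have z : ∑ j, Q (ind (g q j)) x = 0 := by
    refine Finset.sum_eq_zero fun j _ => ?_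
    rw [Q_ind]
    refine Finset.sum_eq_zero fun c _ => ?_
    have := congrFun hL (j, c)
    simp only [L, LinearMap.coe_mk, AddHom.coe_mk, Pi.zero_apply] at this
    rw [this]; simp
  have h1 := Q_ind_nonneg (fun u : Vq q => u.1) x
  have h2 := Q_ind_nonneg (fun u : Vq q => u.2.1) x
  have h3 := Q_ind_nonneg (fun u : Vq q => u.2.2.1) x
  have h4 := Q_ind_nonneg (fun u : Vq q => (u.1, u.2.1, u.2.2.1)) x
  have h5 := Q_ind_nonneg (fun u : Vq q => u.2.2.2) x
  have h6 := Q_id_pos x hx
  rw [e, z]; linarith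

lemma bounds : nNeg (G q) ≤ 6 * q ^ 2 ∧ q ^ 5 ≤ nPos (G q) + 6 * q ^ 2 := by
  unfold nNeg nPos
  generalize_proofs hA
  have key := @count_nonpos _ _ _ (fun a b => Classical.propDecidable (a = b)) _ _ hA (L q) (by
    intro x hL hx
    have := Q_val_pos q x hL hx
    convert this using 1
    simp only [dotProduct, mulVec, Q, Finset.mul_sum]
    refine Finset.sum_congr rfl fun u _ => Finset.sum_congr rfl fun v _ => ?_
    rw [SimpleGraph.adjMatrix_apply]
    congr 2
    rcases val_cases q u v with h | h
    · rw [if_neg (by change ¬ val q u v = 1; rw [h]; norm_num), h]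
    · rw [if_pos (by exact h), h])
  have hc : Fintype.card (Fin 6 × (ZMod q × ZMod q)) = 6 * q ^ 2 := by
    simp [ZMod.card, sq]
  rw [hc] at key
  have hV : Fintype.card (Vq q) = q ^ 5 := by simp [ZMod.card]; ring
  constructor
  · refine le_trans (Finset.card_le_card fun i hi => ?_) key
    simp only [mem_filter, mem_univ, true_and] at hi ⊢
    exact hi.le
  · have := Finset.card_filter_add_card_filter_not (s := (univ : Finset (Vq q)))
      (fun i => 0 < @Matrix.IsHermitian.eigenvalues _ _ _ _ _
        (fun a b => Classical.propDecidable (a = b)) hA i)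
    simp only [not_lt, Finset.card_univ, hV] at this
    omega

end

end Pool.Agent.H.MP_f59665_co
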